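import Mathlib

/-!
# MP_f2c072_co: the two-pattern set `B_k` does not minimise consecutive avoidance counts

`B_6 = {123465, 123564}` is beaten by `{123465, 134265}` at `n = 11`:
both patterns of the second set begin with their smallest letter and end with their second
largest one, and no two of them overlap in more than one letter; the number of permutations of
length `11 = 2·6-1` containing two occurrences is therefore only `4·6 = 24`, while for `B_6` it is
at least `25` (in fact `54`), and the total numbers of occurrences are the same.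
-/

namespace Pool.Agent.Results.MP_f2c072_co.NotMinimising

open Equiv Finset

/-- The pattern `p ∈ S_k` (one-line notation `p 0, p 1, …`) occurs consecutively in `σ ∈ S_n`
at the (0-based) position `i`: the reduction of `σ_i, …, σ_{i+k-1}` is `p`. -/
def OccursAt {k n : ℕ} (p : Perm (Fin k)) (σ : Perm (Fin n)) (i : ℕ) : Prop :=
  ∃ h : i + k ≤ n, ∀ a b : Fin k,
    p a < p b ↔ σ ⟨i + a.1, by omega⟩ < σ ⟨i + b.1, by omega⟩

/-- `alpha B n` is the number of `σ ∈ S_n` avoiding consecutively all patterns of `B`. -/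
noncomputable def alpha {k : ℕ} (B : Finset (Perm (Fin k))) (n : ℕ) : ℕ :=
  Nat.card {σ : Perm (Fin n) // ∀ p ∈ B, ∀ i : ℕ, ¬ OccursAt p σ i}

/-- `τ₁ = 1 2 ⋯ (k-2) k (k-1)`. -/
def tau1 (k : ℕ) (hk : 3 ≤ k) : Perm (Fin k) :=
  Equiv.swap ⟨k - 2, by omega⟩ ⟨k - 1, by omega⟩

/-- `τ₂ = 1 2 ⋯ (k-3) (k-1) k (k-2)`. -/
def tau2 (k : ℕ) (hk : 3 ≤ k) : Perm (Fin k) :=
  Equiv.swap ⟨k - 3, by omega⟩ ⟨k - 2, by omega⟩ * Equiv.swap ⟨k - 2, by omega⟩ ⟨k - 1, by omega⟩

/-! ### The case `k = 6`, `n = 11` -/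

/-- The window embedding. -/
def e (i : Fin 6) : Fin 6 ↪ Fin 11 where
  toFun a := ⟨i.1 + a.1, by omega⟩
  inj' := by
    intro a b h
    simp only [Fin.mk.injEq] at h
    exact Fin.ext (by omega)

theorem e_val (i a : Fin 6) : (e i a).1 = i.1 + a.1 := rfl

/-- The permutations with an occurrence of `p` at position `i`. -/
noncomputable def A (p : Perm (Fin 6)) (i : Fin 6) : Finset (Perm (Fin 11)) := by
  classical
  exact univ.filter (fun σ => ∀ a b, p a < p b ↔ σ (e i a) < σ (e i b))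

theorem mem_A {p : Perm (Fin 6)} {i : Fin 6} {σ : Perm (Fin 11)} :
    σ ∈ A p i ↔ ∀ a b, p a < p b ↔ σ (e i a) < σ (e i b) := by
  simp [A]

theorem occursAt_iff (p : Perm (Fin 6)) (σ : Perm (Fin 11)) (i : ℕ) :
    OccursAt p σ i ↔ ∃ h : i < 6, σ ∈ A p ⟨i, h⟩ := by
  constructor
  · rintro ⟨h, h2⟩
    refine ⟨by omega, ?_⟩
    rw [mem_A]
    intro a b
    exact h2 a b
  · rintro ⟨h, h2⟩
    rw [mem_A] at h2
    exact ⟨by omega, fun a b => h2 a b⟩

theorem card_A_le (p q : Perm (Fin 6)) (i : Fin 6) : (A p i).card ≤ (A q i).card := by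
  apply Finset.card_le_card_of_injOn
    (fun σ => σ * (p⁻¹ * q).viaFintypeEmbedding (e i))
  · intro σ hσ
    simp only [Finset.mem_coe] at hσ ⊢
    rw [mem_A] at hσ ⊢
    intro a b
    simp only [Perm.mul_apply, Equiv.Perm.viaFintypeEmbedding_apply_image]
    rw [← hσ]
    simp
  · intro σ _ τ _ h
    exact mul_right_cancel h

theorem card_A_eq (p q : Perm (Fin 6)) (i : Fin 6) : (A p i).card = (A q i).card :=
  le_antisymm (card_A_le p q i) (card_A_le q p i)

theorem perm_eq_of_lt_iff (p q : Perm (Fin 6)) (h : ∀ a b, p a < p b ↔ q a < q b) : p = q := by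
  have hf : StrictMono (fun x => p (q⁻¹ x)) := by
    intro x y hxy
    show p (q⁻¹ x) < p (q⁻¹ y)
    rw [h]
    simpa using hxy
  have hid : StrictMono (id : Fin 6 → Fin 6) := strictMono_id
  have hr : Set.range (fun x => p (q⁻¹ x)) = Set.range (id : Fin 6 → Fin 6) := by
    rw [Set.range_id, Set.range_eq_univ]
    intro y
    exact ⟨q (p⁻¹ y), by simp⟩
  have := (hf.range_inj hid).1 hr
  ext1 x
  have h2 := congrFun this (q x)
  simpa using h2

theorem disjoint_A (p q : Perm (Fin 6)) (hpq : p ≠ q) (i : Fin 6) :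
    Disjoint (A p i) (A q i) := by
  rw [Finset.disjoint_left]
  intro σ h1 h2
  rw [mem_A] at h1 h2
  exact hpq (perm_eq_of_lt_iff p q (fun a b => (h1 a b).trans (h2 a b).symm))

/-- The permutations with an occurrence of a pattern of `B` at position `i`. -/
noncomputable def occ (B : Finset (Perm (Fin 6))) (i : Fin 6) : Finset (Perm (Fin 11)) := by
  classical
  exact B.biUnion (fun p => A p i)

theorem mem_occ {B : Finset (Perm (Fin 6))} {i : Fin 6} {σ : Perm (Fin 11)} :
    σ ∈ occ B i ↔ ∃ p ∈ B, σ ∈ A p i := by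
  simp [occ]

theorem card_occ (B : Finset (Perm (Fin 6))) (i : Fin 6) :
    (occ B i).card = B.card * (A 1 i).card := by
  classical
  unfold occ
  rw [Finset.card_biUnion]
  · rw [Finset.sum_congr rfl (fun p _ => card_A_eq p 1 i)]
    simp
  · intro p _ q _ hpq
    exact disjoint_A p q hpq i

/-- Permutations containing some pattern of `B`. -/
noncomputable def U (B : Finset (Perm (Fin 6))) : Finset (Perm (Fin 11)) := by
  classical
  exact univ.filter (fun σ => ∃ i, σ ∈ occ B i)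

theorem alpha_add (B : Finset (Perm (Fin 6))) :
    alpha B 11 + (U B).card = Fintype.card (Perm (Fin 11)) := by
  classical
  have h1 : alpha B 11 = (univ.filter (fun σ : Perm (Fin 11) => ¬ ∃ i, σ ∈ occ B i)).card := by
    unfold alpha
    rw [Nat.card_eq_fintype_card, Fintype.card_subtype]
    congr 1
    ext σ
    simp only [Finset.mem_filter, Finset.mem_univ, true_and, mem_occ, occursAt_iff]
    constructor
    · rintro h ⟨i, p, hp, hσ⟩
      exact h p hp i.1 ⟨i.2, hσ⟩
    · intro h p hp i hi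
      obtain ⟨hi, h2⟩ := hi
      exact h ⟨⟨i, hi⟩, p, hp, h2⟩
  rw [h1, add_comm]
  unfold U
  rw [Finset.card_filter_add_card_filter_not]
  rfl

/-- Number of occurrences. -/
noncomputable def N (B : Finset (Perm (Fin 6))) (σ : Perm (Fin 11)) : ℕ := by
  classical
  exact (univ.filter (fun i : Fin 6 => σ ∈ occ B i)).card

theorem sum_N (B : Finset (Perm (Fin 6))) : ∑ σ, N B σ = B.card * ∑ i, (A 1 i).card := by
  classical
  unfold N
  simp only [Finset.card_filter]
  rw [Finset.sum_comm, Finset.mul_sum]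
  apply Finset.sum_congr rfl
  intro i _
  rw [← card_occ]
  simp

/-- Two occurrences at the two extreme positions. -/
noncomputable def D (B : Finset (Perm (Fin 6))) : Finset (Perm (Fin 11)) := by
  classical
  exact univ.filter (fun σ => σ ∈ occ B 0 ∧ σ ∈ occ B 5)

theorem lower (B : Finset (Perm (Fin 6))) : (U B).card + (D B).card ≤ ∑ σ, N B σ := by
  classical
  unfold U D N
  rw [Finset.card_filter, Finset.card_filter, ← Finset.sum_add_distrib]
  apply Finset.sum_le_sum
  intro σ _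
  by_cases h1 : σ ∈ occ B 0 ∧ σ ∈ occ B 5
  · have h2 : ({0, 5} : Finset (Fin 6)) ⊆ univ.filter (fun i : Fin 6 => σ ∈ occ B i) := by
      intro i hi
      simp only [Finset.mem_insert, Finset.mem_singleton] at hi
      simp only [Finset.mem_filter, Finset.mem_univ, true_and]
      rcases hi with rfl | rfl
      · exact h1.1
      · exact h1.2
    have h3 := Finset.card_le_card h2
    have h4 : ({0, 5} : Finset (Fin 6)).card = 2 := by decide
    rw [h4] at h3
    split_ifs <;> omega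
  · rw [if_neg h1]
    by_cases h2 : ∃ i, σ ∈ occ B i
    · rw [if_pos h2]
      obtain ⟨i, hi⟩ := h2
      have : 0 < (univ.filter (fun i : Fin 6 => σ ∈ occ B i)).card :=
        Finset.card_pos.2 ⟨i, by simp [hi]⟩
      omega
    · rw [if_neg h2]
      omega

theorem upper (B : Finset (Perm (Fin 6)))
    (hB : ∀ i j : Fin 6, i < j → ∀ σ, σ ∈ occ B i → σ ∈ occ B j → i = 0 ∧ j = 5) :
    ∑ σ, N B σ ≤ (U B).card + (D B).card := by
  classical
  unfold U D N
  rw [Finset.card_filter, Finset.card_filter, ← Finset.sum_add_distrib]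
  apply Finset.sum_le_sum
  intro σ _
  by_cases h1 : (univ.filter (fun i : Fin 6 => σ ∈ occ B i)).card ≤ 1
  · by_cases h2 : ∃ i, σ ∈ occ B i
    · rw [if_pos h2]
      omega
    · have : (univ.filter (fun i : Fin 6 => σ ∈ occ B i)) = ∅ := by
        rw [Finset.filter_eq_empty_iff]
        intro i _ hi
        exact h2 ⟨i, hi⟩
      rw [this]
      simp
  · rw [not_le, Finset.one_lt_card] at h1
    obtain ⟨i, hi, j, hj, hij⟩ := h1
    have key : ∀ i j : Fin 6, σ ∈ occ B i → σ ∈ occ B j → i ≠ j →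
        (i = 0 ∧ j = 5) ∨ (i = 5 ∧ j = 0) := by
      intro i j hi hj hij
      rcases lt_or_gt_of_ne hij with h | h
      · exact Or.inl (hB i j h σ hi hj)
      · have := hB j i h σ hj hi
        exact Or.inr ⟨this.2, this.1⟩
    simp only [Finset.mem_filter, Finset.mem_univ, true_and] at hi hj
    have h05 : σ ∈ occ B 0 ∧ σ ∈ occ B 5 := by
      rcases key i j hi hj hij with ⟨rfl, rfl⟩ | ⟨rfl, rfl⟩
      · exact ⟨hi, hj⟩
      · exact ⟨hj, hi⟩
    have hsub : univ.filter (fun i : Fin 6 => σ ∈ occ B i) ⊆ ({0, 5} : Finset (Fin 6)) := by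
      intro l hl
      simp only [Finset.mem_filter, Finset.mem_univ, true_and] at hl
      simp only [Finset.mem_insert, Finset.mem_singleton]
      by_cases hl0 : l = 0
      · exact Or.inl hl0
      · rcases key l 0 hl h05.1 hl0 with ⟨h, _⟩ | ⟨h, _⟩
        · exact Or.inl h
        · exact Or.inr h
    have h3 := Finset.card_le_card hsub
    have h4 : ({0, 5} : Finset (Fin 6)).card = 2 := by decide
    rw [h4] at h3
    rw [if_pos ⟨0, h05.1⟩, if_pos h05]
    exact h3

/-! ### The two sets -/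

/-- `134265`. -/
def q0 : Perm (Fin 6) := Equiv.swap 1 2 * Equiv.swap 2 3 * Equiv.swap 4 5

/-- `123465`. -/
def t1 : Perm (Fin 6) := Equiv.swap 4 5

/-- `123564`. -/
def t2 : Perm (Fin 6) := Equiv.swap 3 4 * Equiv.swap 4 5

/-- The better set. -/
def B' : Finset (Perm (Fin 6)) := {t1, q0}

/-- The set `B_6`. -/
def B6 : Finset (Perm (Fin 6)) := {t1, t2}

theorem card_B' : B'.card = 2 := by decide

theorem card_B6 : B6.card = 2 := by decide

theorem noOverlap_dec : ∀ p ∈ B', ∀ q ∈ B', ∀ i j : Fin 6, i < j → ¬ (i = 0 ∧ j = 5) →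
    ∃ a b a' b' : Fin 6, i.1 + a.1 = j.1 + a'.1 ∧ i.1 + b.1 = j.1 + b'.1 ∧
      p a < p b ∧ ¬ q a' < q b' := by
  decide +kernel

theorem noOverlap (i j : Fin 6) (hij : i < j) (σ : Perm (Fin 11)) (hi : σ ∈ occ B' i)
    (hj : σ ∈ occ B' j) : i = 0 ∧ j = 5 := by
  by_contra hne
  rw [mem_occ] at hi hj
  obtain ⟨p, hp, hi⟩ := hi
  obtain ⟨q, hq, hj⟩ := hj
  obtain ⟨a, b, a', b', ha, hb, h1, h2⟩ := noOverlap_dec p hp q hq i j hij hne
  rw [mem_A] at hi hj
  apply h2
  rw [hj, ← show e i a = e j a' from Fin.ext ha, ← show e i b = e j b' from Fin.ext hb, ← hi]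
  exact h1

/-! ### At most 24 permutations with two occurrences from `B'` -/

theorem strictMono_window {p : Perm (Fin 6)} {i : Fin 6} {σ : Perm (Fin 11)} (h : σ ∈ A p i) :
    StrictMono (fun x => σ (e i (p⁻¹ x))) := by
  rw [mem_A] at h
  intro x y hxy
  show σ (e i (p⁻¹ x)) < σ (e i (p⁻¹ y))
  rw [← h]
  simpa using hxy

theorem B'_first : ∀ q ∈ B', q⁻¹ 0 = 0 := by decide +kernel

theorem B'_last : ∀ q ∈ B', q⁻¹ 4 = 5 := by decide +kernel

theorem B'_max : ∀ q ∈ B', q⁻¹ 5 = 4 := by decide +kernel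

/-- Values in the first window. -/
theorem first_window {p q : Perm (Fin 6)} (hp : p ∈ B') (hq : q ∈ B') {σ : Perm (Fin 11)}
    (h0 : σ ∈ A p 0) (h5 : σ ∈ A q 5) :
    ∀ x : Fin 6, x.1 < 5 → (σ (e 0 (p⁻¹ x))).1 = x.1 := by
  have m0 := strictMono_window h0
  have m5 := strictMono_window h5
  -- the value of the shared letter
  have hs : e 5 (q⁻¹ 0) = e 0 (p⁻¹ 4) := by
    rw [B'_first q hq, B'_last p hp]
    rfl
  -- six larger values
  have h6 : ((univ.filter (fun v : Fin 11 => σ (e 0 (p⁻¹ 4)) < v))).card ≥ 6 := by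
    have hsub : (univ.image (fun x : Fin 6 => if x = 0 then σ (e 0 (p⁻¹ 5))
        else σ (e 5 (q⁻¹ x)))) ⊆ univ.filter (fun v : Fin 11 => σ (e 0 (p⁻¹ 4)) < v) := by
      intro v hv
      rw [Finset.mem_image] at hv
      obtain ⟨x, _, rfl⟩ := hv
      simp only [Finset.mem_filter, Finset.mem_univ, true_and]
      split_ifs with hx
      · exact m0 (show (4 : Fin 6) < 5 by decide)
      · rw [← hs]
        exact m5 (Fin.pos_of_ne_zero hx)
    have hcard : (univ.image (fun x : Fin 6 => if x = 0 then σ (e 0 (p⁻¹ 5))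
        else σ (e 5 (q⁻¹ x)))).card = 6 := by
      rw [Finset.card_image_of_injective, Finset.card_univ, Fintype.card_fin]
      intro x y hxy
      have hne : ∀ y : Fin 6, y ≠ 0 → σ (e 0 (p⁻¹ 5)) ≠ σ (e 5 (q⁻¹ y)) := by
        intro y hy h
        have h1 := σ.injective h
        rw [B'_max p hp] at h1
        have h2 : (e 0 4).1 = (e 5 (q⁻¹ y)).1 := by rw [h1]
        rw [e_val, e_val] at h2
        have : ((0 : Fin 6) : ℕ) = 0 := rfl
        have h3 : ((4 : Fin 6) : ℕ) = 4 := rfl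
        have h4 : ((5 : Fin 6) : ℕ) = 5 := rfl
        have h5 : (q⁻¹ y).1 ≠ 0 := by
          intro h6
          have h7 : q⁻¹ y = q⁻¹ 0 := by rw [B'_first q hq]; exact Fin.ext h6
          exact hy (q⁻¹.injective h7)
        omega
      simp only at hxy
      by_cases hx : x = 0 <;> by_cases hy : y = 0
      · rw [hx, hy]
      · rw [if_pos hx, if_neg hy] at hxy
        exact absurd hxy (hne y hy)
      · rw [if_neg hx, if_pos hy] at hxy
        exact absurd hxy.symm (hne x hx)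
      · rw [if_neg hx, if_neg hy] at hxy
        exact (m5.injective hxy)
    exact hcard.symm.le.trans (Finset.card_le_card hsub)
  have h7 : (σ (e 0 (p⁻¹ 4))).1 ≤ 4 := by
    have h8 : (univ.filter (fun v : Fin 11 => σ (e 0 (p⁻¹ 4)) < v)).card
        = 10 - (σ (e 0 (p⁻¹ 4))).1 := by
      have : (univ.filter (fun v : Fin 11 => σ (e 0 (p⁻¹ 4)) < v))
          = Finset.Ioi (σ (e 0 (p⁻¹ 4))) := by
        ext v; simp
      rw [this, Fin.card_Ioi]
    omega
  have a0 := m0 (show (0 : Fin 6) < 1 by decide)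
  have a1 := m0 (show (1 : Fin 6) < 2 by decide)
  have a2 := m0 (show (2 : Fin 6) < 3 by decide)
  have a3 := m0 (show (3 : Fin 6) < 4 by decide)
  simp only [Fin.lt_def] at a0 a1 a2 a3
  intro x hx
  fin_cases x
  · simp only [Fin.isValue] at *
    show (σ (e 0 (p⁻¹ 0))).1 = 0
    omega
  · show (σ (e 0 (p⁻¹ 1))).1 = 1
    omega
  · show (σ (e 0 (p⁻¹ 2))).1 = 2
    omega
  · show (σ (e 0 (p⁻¹ 3))).1 = 3
    omega
  · show (σ (e 0 (p⁻¹ 4))).1 = 4
    omega
  · simp at hx

theorem first_eq {p q : Perm (Fin 6)} (hp : p ∈ B') (hq : q ∈ B') {σ τ : Perm (Fin 11)}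
    (h0 : σ ∈ A p 0) (h5 : σ ∈ A q 5) (k0 : τ ∈ A p 0) (k5 : τ ∈ A q 5)
    (h4 : σ (e 0 4) = τ (e 0 4)) : ∀ a : Fin 6, σ (e 0 a) = τ (e 0 a) := by
  intro a
  have ha : a = p⁻¹ (p a) := by simp
  by_cases h : (p a).1 < 5
  · have h1 := first_window hp hq h0 h5 (p a) h
    have h2 := first_window hp hq k0 k5 (p a) h
    rw [← ha] at h1 h2
    exact Fin.ext (h1.trans h2.symm)
  · have h6 : p a = 5 := Fin.ext (by have := (p a).2; change (p a).1 = 5; omega)
    rw [h6, B'_max p hp] at ha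
    rw [ha]
    exact h4

theorem determined {p q : Perm (Fin 6)} (hp : p ∈ B') (hq : q ∈ B') {σ τ : Perm (Fin 11)}
    (h0 : σ ∈ A p 0) (h5 : σ ∈ A q 5) (k0 : τ ∈ A p 0) (k5 : τ ∈ A q 5)
    (h4 : σ (e 0 4) = τ (e 0 4)) : σ = τ := by
  have hfirst := first_eq hp hq h0 h5 k0 k5 h4
  have key : ∀ (σ τ : Perm (Fin 11)), (∀ a : Fin 6, σ (e 0 a) = τ (e 0 a)) →
      Set.range (fun x => σ (e 5 (q⁻¹ x))) ⊆ Set.range (fun x => τ (e 5 (q⁻¹ x))) := by
    rintro σ τ hfirst v ⟨x, rfl⟩
    -- the preimage under τ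
    obtain ⟨y, hy⟩ := τ.surjective (σ (e 5 (q⁻¹ x)))
    by_cases hlt : y.1 < 5
    · exfalso
      have h1 : y = e 0 ⟨y.1, by omega⟩ := Fin.ext (by simp [e])
      rw [h1, ← hfirst] at hy
      have h2 : (e 0 ⟨y.1, by omega⟩).1 = (e 5 (q⁻¹ x)).1 := congrArg Fin.val (σ.injective hy)
      rw [e_val, e_val] at h2
      simp only at h2
      have : ((0 : Fin 6) : ℕ) = 0 := rfl
      have h4 : ((5 : Fin 6) : ℕ) = 5 := rfl
      omega
    · refine ⟨q ⟨y.1 - 5, by omega⟩, ?_⟩
      have h6 : q⁻¹ (q ⟨y.1 - 5, by omega⟩) = ⟨y.1 - 5, by omega⟩ := by simp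
      show τ (e 5 (q⁻¹ (q ⟨y.1 - 5, _⟩))) = σ (e 5 (q⁻¹ x))
      rw [h6, ← hy]
      congr 1
      apply Fin.ext
      have h4 : ((5 : Fin 6) : ℕ) = 5 := rfl
      rw [e_val]
      simp only
      omega
  have hr : Set.range (fun x => σ (e 5 (q⁻¹ x))) = Set.range (fun x => τ (e 5 (q⁻¹ x))) :=
    Set.Subset.antisymm (key σ τ hfirst) (key τ σ (fun a => (hfirst a).symm))
  have h2 := ((strictMono_window h5).range_inj (strictMono_window k5)).1 hr
  ext1 y
  by_cases hlt : y.1 < 6
  · have h1 : y = e 0 ⟨y.1, hlt⟩ := Fin.ext (by simp [e])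
    rw [h1]
    exact hfirst _
  · have h1 : y = e 5 ⟨y.1 - 5, by omega⟩ := by
      apply Fin.ext
      have h4 : ((5 : Fin 6) : ℕ) = 5 := rfl
      rw [e_val]
      simp only
      omega
    have h3 := congrFun h2 (q ⟨y.1 - 5, by omega⟩)
    have h6 : q⁻¹ (q ⟨y.1 - 5, by omega⟩) = ⟨y.1 - 5, by omega⟩ := by simp
    change σ (e 5 (q⁻¹ (q ⟨y.1 - 5, _⟩))) = τ (e 5 (q⁻¹ (q ⟨y.1 - 5, _⟩))) at h3
    rw [h6] at h3
    rw [h1]
    exact h3

theorem card_D_B' : (D B').card ≤ 24 := by
  classical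
  -- choose the patterns
  have hch : ∀ σ : Perm (Fin 11), ∃ pq : Perm (Fin 6) × Perm (Fin 6), σ ∈ D B' →
      pq.1 ∈ B' ∧ pq.2 ∈ B' ∧ σ ∈ A pq.1 0 ∧ σ ∈ A pq.2 5 := by
    intro σ
    by_cases h : σ ∈ D B'
    · have h' := h
      unfold D at h'
      simp only [Finset.mem_filter, Finset.mem_univ, true_and, mem_occ] at h'
      obtain ⟨⟨p, hp, h1⟩, q, hq, h2⟩ := h'
      exact ⟨(p, q), fun _ => ⟨hp, hq, h1, h2⟩⟩
    · exact ⟨(1, 1), fun h' => absurd h' h⟩
  choose f hf using hch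
  have hle : (D B').card ≤ ((B' ×ˢ B') ×ˢ (univ.filter (fun v : Fin 11 => 4 < v.1))).card := by
    apply Finset.card_le_card_of_injOn (fun σ => (f σ, σ (e 0 4)))
    · intro σ hσ
      obtain ⟨h1, h2, h3, h4⟩ := hf σ hσ
      simp only [Finset.coe_product, Set.mem_prod, Finset.mem_coe, Finset.mem_filter,
        Finset.mem_univ, true_and]
      refine ⟨⟨h1, h2⟩, ?_⟩
      have m0 := strictMono_window h3
      have h5 := first_window h1 h2 h3 h4 4 (by decide)
      have h6 := m0 (show (4 : Fin 6) < 5 by decide)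
      simp only [Fin.lt_def] at h6
      rw [h5, B'_max _ h1] at h6
      exact h6
    · intro σ hσ τ hτ h
      simp only [Prod.mk.injEq] at h
      obtain ⟨h1, h2, h3, h4⟩ := hf σ hσ
      obtain ⟨k1, k2, k3, k4⟩ := hf τ hτ
      rw [← h.1] at k1 k2 k3 k4
      exact determined h1 h2 h3 h4 k3 k4 h.2
  refine hle.trans ?_
  decide

/-! ### At least 25 permutations with two occurrences from `B_6` -/

/-- A list of 27 permutations of `{0,…,10}`. -/
def L : List (List ℕ) :=
  (List.range 11).flatMap fun a => (List.range 11).flatMap fun b =>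
    if 4 ≤ a ∧ a < b then
      let r := (List.range 11).filter (fun x => 4 ≤ x ∧ x ≠ a ∧ x ≠ b)
      [[0, 1, 2, a, b, 3] ++ [r.getD 0 0, r.getD 1 0, r.getD 2 0, r.getD 4 0, r.getD 3 0],
       [0, 1, 2, a, b, 3] ++ [r.getD 0 0, r.getD 1 0, r.getD 3 0, r.getD 4 0, r.getD 2 0]]
    else []

/-- The function of a list. -/
def toFn (l : List ℕ) : Fin 11 → Fin 11 := fun x => Fin.ofNat 11 (l.getD x.1 0)

theorem L_good : ∀ l ∈ L, Function.Injective (toFn l) ∧
    (∀ a b : Fin 6, t2 a < t2 b ↔ toFn l (e 0 a) < toFn l (e 0 b)) ∧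
    ((∀ a b : Fin 6, t1 a < t1 b ↔ toFn l (e 5 a) < toFn l (e 5 b)) ∨
     (∀ a b : Fin 6, t2 a < t2 b ↔ toFn l (e 5 a) < toFn l (e 5 b))) := by
  decide +kernel

theorem L_card : (L.map toFn).toFinset.card = 42 := by
  decide +kernel

theorem card_D_B6 : 42 ≤ (D B6).card := by
  classical
  rw [← L_card]
  have hex : ∀ g ∈ (L.map toFn).toFinset, ∃ σ ∈ D B6, (σ : Fin 11 → Fin 11) = g := by
    intro g hg
    rw [List.mem_toFinset, List.mem_map] at hg
    obtain ⟨l, hl, rfl⟩ := hg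
    obtain ⟨h1, h2, h3⟩ := L_good l hl
    refine ⟨Equiv.ofBijective (toFn l) ((Fintype.bijective_iff_injective_and_card _).2
      ⟨h1, rfl⟩), ?_, rfl⟩
    unfold D
    simp only [Finset.mem_filter, Finset.mem_univ, true_and, mem_occ, mem_A]
    refine ⟨⟨t2, by decide, fun a b => h2 a b⟩, ?_⟩
    rcases h3 with h3 | h3
    · exact ⟨t1, by decide, fun a b => h3 a b⟩
    · exact ⟨t2, by decide, fun a b => h3 a b⟩
  choose! f hf1 hf2 using hex
  apply Finset.card_le_card_of_injOn f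
  · intro g hg
    exact hf1 g hg
  · intro g hg g' hg' h
    rw [← hf2 g hg, ← hf2 g' hg', h]

theorem main : alpha B' 11 < alpha B6 11 := by
  have h1 := alpha_add B'
  have h2 := alpha_add B6
  have h3 := upper B' noOverlap
  have h4 := lower B6
  rw [sum_N, card_B'] at h3
  rw [sum_N, card_B6] at h4
  have h5 := card_D_B'
  have h6 := card_D_B6
  omega

theorem B6_eq : B6 = {tau1 6 (by norm_num), tau2 6 (by norm_num)} := rfl

/-- **MP_f2c072_co, Q1 (negative answer).** It is not true that `B_k = {τ₁, τ₂}` minimises all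
consecutive avoidance counts among two-element sets of patterns of length `k`. -/
theorem result : ¬ ∀ (k : ℕ) (hk : 3 ≤ k) (B : Finset (Perm (Fin k))), B.card = 2 →
    ∀ n : ℕ, 1 ≤ n → alpha {tau1 k hk, tau2 k hk} n ≤ alpha B n := by
  intro h
  have h1 := h 6 (by norm_num) B' card_B' 11 (by norm_num)
  have h2 := main
  rw [B6_eq] at h2
  omega

end Pool.Agent.Results.MP_f2c072_co.NotMinimising
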